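import Pool.Agent.H736R5.MM.Fin2
import Pool.Agent.H736R5.GL.Core
import Pool.Agent.H380R2.CodeCF

/-!
Littlewood's problem near a long block of equal partial quotients.
-/

set_option autoImplicit false

namespace H255.LW

open Pool.Agent.H380R2.LC H736R5.MM

/-- `s x_i = (x_1 - ν x_0) μ^i + (μ x_0 - x_1) ν^i` for a recursion of length `m`. -/
lemma rep (t : ℕ) (x : ℕ → ℝ) (m : ℕ) (h : ∀ i < m, x (i + 2) = t * x (i + 1) + x i) :
    ∀ i ≤ m, (mu t - nu t) * x i = (x 1 - nu t * x 0) * mu t ^ i + (mu t * x 0 - x 1) * nu t ^ i ∧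
      (mu t - nu t) * x (i + 1) =
        (x 1 - nu t * x 0) * mu t ^ (i + 1) + (mu t * x 0 - x 1) * nu t ^ (i + 1) := by
  have h1 := mu_add_nu t
  have h2 := mu_mul_nu t
  have hmu : ∀ i, mu t ^ (i + 2) = t * mu t ^ (i + 1) + mu t ^ i := by
    intro i
    have h3 : mu t ^ 2 = t * mu t + 1 := by linear_combination (mu t) * h1 - h2
    calc mu t ^ (i + 2) = mu t ^ i * mu t ^ 2 := by ring
      _ = _ := by rw [h3]; ring
  have hnu : ∀ i, nu t ^ (i + 2) = t * nu t ^ (i + 1) + nu t ^ i := by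
    intro i
    have h3 : nu t ^ 2 = t * nu t + 1 := by linear_combination (nu t) * h1 - h2
    calc nu t ^ (i + 2) = nu t ^ i * nu t ^ 2 := by ring
      _ = _ := by rw [h3]; ring
  intro i
  induction i with
  | zero =>
    intro _
    constructor <;> ring
  | succ i ih =>
    intro hi
    obtain ⟨e1, e2⟩ := ih (by omega)
    refine ⟨e2, ?_⟩
    rw [show i + 1 + 1 = i + 2 from rfl, h i (by omega), hmu, hnu]
    linear_combination (t : ℝ) * e2 + e1

lemma mu_ge (t : ℕ) (ht : 1 ≤ t) : (8 / 5 : ℝ) ≤ mu t := by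
  unfold mu
  have h1 : (1 : ℝ) ≤ t := by exact_mod_cast ht
  have h2 : (11 / 5 : ℝ) ≤ √((t : ℝ) ^ 2 + 4) := by
    rw [Real.le_sqrt (by norm_num) (by positivity)]
    nlinarith
  linarith

lemma mu_le (t : ℕ) (ht : t ≤ 11) : mu t ≤ 12 := by
  unfold mu
  have h1 : (t : ℝ) ≤ 11 := by exact_mod_cast ht
  have h0 : (0 : ℝ) ≤ t := by positivity
  have h2 : √((t : ℝ) ^ 2 + 4) ≤ 12 := by
    rw [Real.sqrt_le_left (by norm_num)]
    nlinarith
  linarith

lemma sqrt_le (t : ℕ) (ht : t ≤ 11) : √((t : ℝ) ^ 2 + 4) ≤ 12 := by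
  have h1 : (t : ℝ) ≤ 11 := by exact_mod_cast ht
  have h0 : (0 : ℝ) ≤ t := by positivity
  rw [Real.sqrt_le_left (by norm_num)]
  nlinarith

lemma one_le_sqrt (t : ℕ) : 1 ≤ √((t : ℝ) ^ 2 + 4) := by
  rw [Real.le_sqrt (by norm_num) (by positivity)]
  nlinarith [sq_nonneg (t : ℝ)]

/-- consecutive remainders have opposite signs -/
lemma th_alt {α : ℝ} (hα : Irrational α) (k : ℕ) : th α k * th α (k + 1) ≤ 0 := by
  rw [th_succ hα k]
  have := Int.fract_nonneg (cq α k)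
  nlinarith [sq_nonneg (th α k), mul_nonneg (sq_nonneg (th α k)) this]

lemma den_mono {α : ℝ} (hα : Irrational α) {i j : ℕ} (h : i ≤ j) : den α i ≤ den α j :=
  Q_le (A := fun k => pq α (k + 1)) (Q := den α) (fun k => pq_pos hα k) rfl rfl (fun _ => rfl) h

lemma den_ge {α : ℝ} (hα : Irrational α) (N : ℕ) : ((N : ℕ) : ℤ) < den α (1 + 2 * N) := by
  have h1 : 2 ^ N * den α 1 ≤ den α (1 + 2 * N) :=
    Q_grow (A := fun k => pq α (k + 1)) (Q := den α) (fun k => pq_pos hα k) rfl rfl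
      (fun _ => rfl) 1 N
  have hd1 : den α 1 = 1 := rfl
  rw [hd1, mul_one] at h1
  have : (N : ℤ) < 2 ^ N := by exact_mod_cast Nat.lt_two_pow_self
  linarith

/-- the main step: a covering element `(q, p)` for the middle of a block gives a denominator. -/
lemma block_step (t : ℕ) (ht : 1 ≤ t) (ht' : t ≤ 11) {α : ℝ} (hα : Irrational α) (k : ℕ)
    (hblock : ∀ i < 128, pq α (k + i + 1) = t) (β C κ : ℝ) (hκ1 : κ ≤ 1)
    (hκ : κ + 1 / 1000000 < C * √((t : ℝ) ^ 2 + 4)) (q p z : ℤ)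
    (hq : |q| ≤ 16777216) (hp : |p| ≤ 16777216) (hm : p ^ 2 - t * (p * q) - q ^ 2 ≠ 0)
    (h : ((|p ^ 2 - t * (p * q) - q ^ 2| : ℤ) : ℝ) *
      |(q : ℝ) * (den α (k + 64) * β) + p * (den α (k + 65) * β) - z| < κ) :
    ∃ Q : ℕ, den α (k + 1) ≤ Q ∧
      (Q : ℝ) * |(Q : ℝ) * α - round ((Q : ℝ) * α)| * |(Q : ℝ) * β - round ((Q : ℝ) * β)| < C := by
  have hrepx := rep t (fun i => (den α (k + i) : ℝ)) 128 (by
    intro i hi
    have := hblock i hi
    show (den α (k + i + 2) : ℝ) = t * den α (k + i + 1) + den α (k + i)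
    have e : den α (k + i + 2) = pq α (k + i + 1) * den α (k + i + 1) + den α (k + i) := rfl
    rw [e, this]
    push_cast
    ring)
  have hrepy := rep t (fun i => th α (k + i)) 128 (by
    intro i hi
    have := hblock i hi
    show th α (k + i + 2) = t * th α (k + i + 1) + th α (k + i)
    rw [th_rec, this]
    push_cast
    ring)
  simp only [Nat.add_zero] at hrepx hrepy
  set μ := mu t with hμdef
  set ν := nu t with hνdef
  set x0 : ℝ := (den α k : ℝ) with hx0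
  set x1 : ℝ := (den α (k + 1) : ℝ) with hx1
  set y0 : ℝ := th α k with hy0
  set y1 : ℝ := th α (k + 1) with hy1
  set W := x1 - ν * x0 with hW
  set Z := μ * x0 - x1 with hZ
  set U := y1 - ν * y0 with hU
  set V := μ * y0 - y1 with hV
  set s := μ - ν with hs
  have hsum : μ + ν = t := mu_add_nu t
  have hprod : μ * ν = -1 := mu_mul_nu t
  have hss : s = √((t : ℝ) ^ 2 + 4) := mu_sub_nu t
  have hs1 : 1 ≤ s := by rw [hss]; exact one_le_sqrt t
  have hs12 : s ≤ 12 := by rw [hss]; exact sqrt_le t ht'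
  have hμ1 : 8 / 5 ≤ μ := mu_ge t ht
  have hμ12 : μ ≤ 12 := mu_le t ht'
  have hμ0 : 0 < μ := by linarith
  have hνneg : ν < 0 := nu_neg t
  have hνabs : |ν| = μ⁻¹ := abs_nu t ht
  have hν1 : |ν| ≤ 1 := by
    rw [hνabs]
    exact inv_le_one_of_one_le₀ (by linarith)
  have hν1' : -1 ≤ ν := by
    rw [abs_of_neg hνneg] at hν1
    linarith
  have hd0 : 0 ≤ x0 := by rw [hx0]; exact_mod_cast den_nonneg hα k
  have hd1 : 0 ≤ x1 := by rw [hx1]; exact_mod_cast den_nonneg hα (k + 1)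
  have hd01 : x0 ≤ x1 := by
    rw [hx0, hx1]
    exact_mod_cast den_mono hα (by omega : k ≤ k + 1)
  have hxy : x1 * |y0| ≤ 1 := den_mul_th hα k
  have hyy : |y1| ≤ |y0| := th_mono hα k
  have hy00 : 0 ≤ |y0| := abs_nonneg _
  -- power `E = μ^64`
  set E := μ ^ 64 with hE
  have hE1 : (2 : ℝ) ^ 43 ≤ E := by
    calc (2 : ℝ) ^ 43 ≤ (8 / 5) ^ 64 := by norm_num
      _ ≤ μ ^ 64 := pow_le_pow_left₀ (by norm_num) hμ1 64
  have hE0 : 0 < E := by positivity
  have hνE : ν ^ 64 = E⁻¹ := by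
    have h1 : ν ^ 64 = |ν| ^ 64 := (Even.pow_abs ⟨32, rfl⟩ ν).symm
    rw [h1, hνabs, inv_pow]
  -- the numbers `A, A'`
  set A : ℝ := q + p * ν with hA
  set A' : ℝ := q + p * μ with hA'
  set m : ℝ := ((|p ^ 2 - t * (p * q) - q ^ 2| : ℤ) : ℝ) with hmdef
  have hm1 : (1 : ℝ) ≤ m := by
    rw [hmdef]
    exact_mod_cast Int.one_le_abs hm
  have hAA : |A| * |A'| = m := by
    rw [← abs_mul, hmdef, hA, hA']
    push_cast
    rw [← abs_neg]
    congr 1
    linear_combination (-(q : ℝ) * p) * hsum - (p : ℝ) ^ 2 * hprod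
  have hqr : |(q : ℝ)| ≤ 16777216 := by exact_mod_cast hq
  have hpr : |(p : ℝ)| ≤ 16777216 := by exact_mod_cast hp
  have hA2 : |A| ≤ 2 ^ 25 := by
    calc |A| ≤ |(q : ℝ)| + |(p : ℝ) * ν| := abs_add_le _ _
      _ = |(q : ℝ)| + |(p : ℝ)| * |ν| := by rw [abs_mul]
      _ ≤ 16777216 + 16777216 * 1 := by gcongr
      _ = 2 ^ 25 := by norm_num
  have hA'2 : |A'| ≤ 2 ^ 28 := by
    calc |A'| ≤ |(q : ℝ)| + |(p : ℝ) * μ| := abs_add_le _ _
      _ = |(q : ℝ)| + |(p : ℝ)| * μ := by rw [abs_mul, abs_of_pos hμ0]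
      _ ≤ 16777216 + 16777216 * 12 := by gcongr
      _ ≤ 2 ^ 28 := by norm_num
  have hA0 : 0 < |A| := by
    rcases (abs_nonneg A).eq_or_lt with h0 | h0
    · rw [← h0, zero_mul] at hAA; linarith
    · exact h0
  have hA'1 : 1 ≤ 2 ^ 25 * |A'| := by
    calc (1 : ℝ) ≤ |A| * |A'| := by rw [hAA]; exact hm1
      _ ≤ 2 ^ 25 * |A'| := by gcongr
  -- the numbers `Q`, `P`
  set Q : ℤ := q * den α (k + 64) + p * den α (k + 65) with hQ
  set P : ℤ := q * num α (k + 64) + p * num α (k + 65) with hP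
  have hQr : (Q : ℝ) = q * den α (k + 64) + p * den α (k + 65) := by rw [hQ]; push_cast; ring
  set R : ℝ := (Q : ℝ) * α - P with hR
  have hRr : R = q * th α (k + 64) + p * th α (k + 65) := by
    rw [hR, hQr, hP]
    simp only [th]
    push_cast
    ring
  have hsQ : s * Q = W * E * A' + Z * E⁻¹ * A := by
    have e1 := (hrepx 64 (by norm_num)).1
    have e2 := (hrepx 64 (by norm_num)).2
    rw [hQr, hA, hA', hE, ← hνE]
    linear_combination (q : ℝ) * e1 + (p : ℝ) * e2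
  have hsR : s * R = U * E * A' + V * E⁻¹ * A := by
    have e1 := (hrepy 64 (by norm_num)).1
    have e2 := (hrepy 64 (by norm_num)).2
    rw [hRr, hA, hA', hE, ← hνE]
    linear_combination (q : ℝ) * e1 + (p : ℝ) * e2
  -- smallness of `U`
  have hUV : |U| * E ≤ |V| * E⁻¹ * E⁻¹ * E⁻¹ := by
    have e1 := (hrepy 128 le_rfl).1
    have e2 := (hrepy 128 le_rfl).2
    have halt := th_alt hα (k + 128)
    have hEE : μ ^ 128 = E * E := by rw [hE]; ring
    have hνEE : ν ^ 128 = E⁻¹ * E⁻¹ := by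
      rw [← hνE]; ring
    have h3 : (s * th α (k + 128)) * (s * th α (k + 128 + 1)) ≤ 0 := by
      have : (s * th α (k + 128)) * (s * th α (k + 128 + 1))
          = s ^ 2 * (th α (k + 128) * th α (k + 128 + 1)) := by ring
      rw [this]
      exact mul_nonpos_of_nonneg_of_nonpos (sq_nonneg s) halt
    have e2' : s * th α (k + 128 + 1) = U * μ ^ (128 + 1) + V * ν ^ (128 + 1) := e2
    rw [e1, e2', pow_succ μ 128, pow_succ ν 128, hEE, hνEE] at h3
    have hνμ : ν = - μ⁻¹ := by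
      have := hνabs
      rw [abs_of_neg hνneg] at this
      linarith
    set a := |U| * (E * E) with ha
    set b := |V| * (E⁻¹ * E⁻¹) with hb
    have ha0 : 0 ≤ a := by positivity
    have hb0 : 0 ≤ b := by positivity
    have ha2 : (U * (E * E)) ^ 2 = a ^ 2 := by rw [ha, mul_pow U, mul_pow |U|, sq_abs]
    have hb2 : (V * (E⁻¹ * E⁻¹)) ^ 2 = b ^ 2 := by rw [hb, mul_pow V, mul_pow |V|, sq_abs]
    have hab : -(a * b) ≤ (U * (E * E)) * (V * (E⁻¹ * E⁻¹)) := by
      have : a * b = |(U * (E * E)) * (V * (E⁻¹ * E⁻¹))| := by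
        rw [abs_mul, abs_mul U, abs_mul V, abs_of_pos (show 0 < E * E by positivity),
          abs_of_pos (show 0 < E⁻¹ * E⁻¹ by positivity)]
      rw [this]
      exact neg_abs_le _
    have ht0 : (0 : ℝ) ≤ t := by positivity
    have hkey : a ^ 2 * μ - t * (a * b) - b ^ 2 * μ⁻¹ ≤ 0 := by
      have e3 : (U * (E * E) + V * (E⁻¹ * E⁻¹)) * (U * (E * E * μ) + V * (E⁻¹ * E⁻¹ * ν))
          = (U * (E * E)) ^ 2 * μ + (μ + ν) * ((U * (E * E)) * (V * (E⁻¹ * E⁻¹)))
            + (V * (E⁻¹ * E⁻¹)) ^ 2 * ν := by ring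
      rw [e3, ha2, hb2, hsum] at h3
      have h4 := mul_le_mul_of_nonneg_left hab ht0
      rw [hνμ] at h3
      linarith
    have htμ : (t : ℝ) = μ - μ⁻¹ := by rw [← hsum, hνμ]; ring
    have hfac : (a - b) * (a * μ + b * μ⁻¹) ≤ 0 := by
      have hμμ : μ * μ⁻¹ = 1 := mul_inv_cancel₀ hμ0.ne'
      have : (a - b) * (a * μ + b * μ⁻¹) = a ^ 2 * μ - t * (a * b) - b ^ 2 * μ⁻¹ := by
        rw [htμ]; ring
      rw [this]; exact hkey
    have hab' : a ≤ b := by
      by_contra hcon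
      push Not at hcon
      have h5 : 0 < a := by linarith
      have h6 : 0 < a * μ + b * μ⁻¹ := by positivity
      have := mul_pos (sub_pos.2 hcon) h6
      linarith
    calc |U| * E = a * E⁻¹ := by rw [ha]; field_simp
      _ ≤ b * E⁻¹ := by gcongr
      _ = |V| * E⁻¹ * E⁻¹ * E⁻¹ := by rw [hb]; ring
  -- bounds for the coefficients
  have hWabs : |W| ≤ 2 * x1 := by
    rw [hW, abs_le]
    constructor <;> nlinarith
  have hWge : x1 ≤ W := by
    rw [hW]
    nlinarith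
  have hZabs : |Z| ≤ 12 * x1 := by
    rw [hZ, abs_le]
    constructor <;> nlinarith
  have hVabs : |V| ≤ 13 * |y0| := by
    calc |V| ≤ |μ * y0| + |y1| := abs_sub _ _
      _ = μ * |y0| + |y1| := by rw [abs_mul, abs_of_pos hμ0]
      _ ≤ 12 * |y0| + |y0| := by gcongr
      _ = 13 * |y0| := by ring
  have hWV : |W| * |V| ≤ 26 := by
    calc |W| * |V| ≤ (2 * x1) * (13 * |y0|) := by gcongr
      _ = 26 * (x1 * |y0|) := by ring
      _ ≤ 26 * 1 := by gcongr
      _ = 26 := by norm_num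
  have hZV : |Z| * |V| ≤ 156 := by
    calc |Z| * |V| ≤ (12 * x1) * (13 * |y0|) := by gcongr
      _ = 156 * (x1 * |y0|) := by ring
      _ ≤ 156 * 1 := by gcongr
      _ = 156 := by norm_num
  have hdet : |W * V - Z * U| = s := by
    have h1 : W * V - Z * U = s * (x1 * y0 - x0 * y1) := by
      rw [hW, hV, hZ, hU, hs]; ring
    rw [h1, abs_mul, det_abs α k, mul_one, abs_of_pos (by linarith)]
  -- `s^2 Q R`
  set I := E⁻¹ with hI
  have hI0 : 0 < I := by positivity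
  have hEI : E * I = 1 := mul_inv_cancel₀ hE0.ne'
  have hI1 : I ≤ 1 / 2 ^ 43 := by
    rw [hI, ← one_div]
    exact one_div_le_one_div_of_le (by positivity) hE1
  have hident : s * (s * (Q * R)) =
      W * U * (E * A') ^ 2 + (W * V - Z * U + 2 * (Z * U)) * (A * A') * (E * I)
        + Z * V * (I * A) ^ 2 := by
    have : s * (s * (Q * R)) = (s * Q) * (s * R) := by ring
    rw [this, hsQ, hsR]
    ring
  have hm53 : m ≤ 2 ^ 53 := by
    rw [← hAA]
    calc |A| * |A'| ≤ 2 ^ 25 * 2 ^ 28 := by gcongr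
      _ = 2 ^ 53 := by norm_num
  have hUE : |U| * E ≤ |V| * I * I * I := hUV
  have hT1 : |W * U * (E * A') ^ 2| ≤ 26 * (I * I) * 2 ^ 56 := by
    have h1 : |W * U * (E * A') ^ 2| = |W| * (|U| * E) * E * |A'| ^ 2 := by
      rw [abs_mul, abs_mul, abs_pow, abs_mul, abs_of_pos hE0]
      ring
    rw [h1]
    calc |W| * (|U| * E) * E * |A'| ^ 2 ≤ |W| * (|V| * I * I * I) * E * (2 ^ 28) ^ 2 := by gcongr
      _ = (|W| * |V|) * (I * I) * (E * I) * 2 ^ 56 := by ring
      _ ≤ 26 * (I * I) * (E * I) * 2 ^ 56 := by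
        have : 0 < E * I := by positivity
        gcongr
      _ = 26 * (I * I) * 2 ^ 56 := by rw [hEI]; ring
  have hT2 : |Z * U| ≤ 156 * (I * I) := by
    have h1 : |U| ≤ |V| * I * I * I * I := by
      calc |U| = |U| * E * I := by rw [mul_assoc, hEI, mul_one]
        _ ≤ |V| * I * I * I * I := by gcongr
    have hI11 : I ≤ 1 := hI1.trans (by norm_num)
    calc |Z * U| = |Z| * |U| := abs_mul _ _
      _ ≤ |Z| * (|V| * I * I * I * I) := by gcongr
      _ = (|Z| * |V|) * (I * I) * (I * I) := by ring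
      _ ≤ 156 * (I * I) * (1 * 1) := by gcongr
      _ = 156 * (I * I) := by ring
  have hT3 : |Z * V * (I * A) ^ 2| ≤ 156 * (I * I) * 2 ^ 50 := by
    have h1 : |Z * V * (I * A) ^ 2| = (|Z| * |V|) * (I * I) * |A| ^ 2 := by
      rw [abs_mul, abs_mul, abs_pow, abs_mul, abs_of_pos hI0]
      ring
    rw [h1]
    calc (|Z| * |V|) * (I * I) * |A| ^ 2 ≤ 156 * (I * I) * (2 ^ 25) ^ 2 := by gcongr
      _ = 156 * (I * I) * 2 ^ 50 := by norm_num
  have hII : I * I ≤ 1 / 2 ^ 86 := by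
    calc I * I ≤ (1 / 2 ^ 43) * (1 / 2 ^ 43) := by gcongr
      _ = 1 / 2 ^ 86 := by norm_num
  have hmain : s * |(Q : ℝ) * R| ≤ m + 1 / 1000000 := by
    have h1 : s * (s * |(Q : ℝ) * R|) ≤ s * m + 1 / 1000000 := by
      have h2 : s * (s * |(Q : ℝ) * R|) = |s * (s * (Q * R))| := by
        rw [abs_mul s (s * ((Q : ℝ) * R)), abs_mul s ((Q : ℝ) * R),
          abs_of_pos (show 0 < s by linarith)]
      rw [h2, hident, hEI, mul_one]
      have h3 : |(W * V - Z * U + 2 * (Z * U)) * (A * A')| ≤ (s + 2 * (156 * (I * I))) * m := by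
        rw [abs_mul, abs_mul A, hAA]
        have : |W * V - Z * U + 2 * (Z * U)| ≤ s + 2 * (156 * (I * I)) := by
          calc |W * V - Z * U + 2 * (Z * U)| ≤ |W * V - Z * U| + |2 * (Z * U)| := abs_add_le _ _
            _ = s + 2 * |Z * U| := by rw [hdet, abs_mul]; norm_num
            _ ≤ s + 2 * (156 * (I * I)) := by gcongr
        gcongr
      calc |W * U * (E * A') ^ 2 + (W * V - Z * U + 2 * (Z * U)) * (A * A') + Z * V * (I * A) ^ 2|
          ≤ |W * U * (E * A') ^ 2| + |(W * V - Z * U + 2 * (Z * U)) * (A * A')|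
            + |Z * V * (I * A) ^ 2| := (abs_add_le _ _).trans (by gcongr; exact abs_add_le _ _)
        _ ≤ 26 * (I * I) * 2 ^ 56 + (s + 2 * (156 * (I * I))) * m
            + 156 * (I * I) * 2 ^ 50 := by gcongr
        _ = s * m + (I * I) * (26 * 2 ^ 56 + 312 * m + 156 * 2 ^ 50) := by ring
        _ ≤ s * m + (1 / 2 ^ 86) * (26 * 2 ^ 56 + 312 * 2 ^ 53 + 156 * 2 ^ 50) := by gcongr
        _ ≤ s * m + 1 / 1000000 := by
          have : (1 / 2 ^ 86 : ℝ) * (26 * 2 ^ 56 + 312 * 2 ^ 53 + 156 * 2 ^ 50) ≤ 1 / 1000000 := by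
            norm_num
          linarith
    by_contra hcon
    push Not at hcon
    have h4 : s * (m + 1 / 1000000) < s * (s * |(Q : ℝ) * R|) :=
      mul_lt_mul_of_pos_left hcon (by linarith)
    nlinarith
  -- size of `Q`
  have hQbig : x1 ≤ |(Q : ℝ)| := by
    have h1 : |W * E * A'| - |Z * I * A| ≤ |W * E * A' + Z * I * A| := by
      have := abs_sub_abs_le_abs_sub (W * E * A') (-(Z * I * A))
      rwa [abs_neg, sub_neg_eq_add] at this
    have h2 : |W * E * A'| = W * E * |A'| := by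
      rw [abs_mul, abs_mul, abs_of_pos hE0, abs_of_nonneg (by linarith)]
    have h3 : |Z * I * A| ≤ (12 * x1) * (1 / 2 ^ 43) * 2 ^ 25 := by
      rw [abs_mul, abs_mul, abs_of_pos hI0]
      gcongr
    have h4 : x1 * 2 ^ 18 ≤ W * E * |A'| := by
      have h5 : (1 / 2 ^ 25 : ℝ) ≤ |A'| := by
        rw [div_le_iff₀ (by positivity)]
        linarith
      calc x1 * 2 ^ 18 = x1 * 2 ^ 43 * (1 / 2 ^ 25) := by ring
        _ ≤ W * E * |A'| := by
          have hW0 : 0 ≤ W := hd1.trans hWge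
          gcongr
    have h6 : s * |(Q : ℝ)| = |W * E * A' + Z * I * A| := by
      rw [← hsQ, abs_mul, abs_of_pos (show 0 < s by linarith)]
    rw [h2, ← h6] at h1
    have h7 : x1 * 2 ^ 18 - (12 * x1) * (1 / 2 ^ 43) * 2 ^ 25 ≤ s * |(Q : ℝ)| := by linarith
    have h8 : 12 * x1 ≤ s * |(Q : ℝ)| := by
      refine le_trans ?_ h7
      have e18 : (2 : ℝ) ^ 18 = 262144 := by norm_num
      have e43 : (1 : ℝ) / 2 ^ 43 * 2 ^ 25 = 1 / 262144 := by norm_num
      have : (12 * x1) * (1 / 2 ^ 43) * 2 ^ 25 = 12 * x1 * (1 / 262144) := by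
        rw [mul_assoc, e43]
      rw [this, e18]
      linarith
    have h9 : s * |(Q : ℝ)| ≤ 12 * |(Q : ℝ)| := mul_le_mul_of_nonneg_right hs12 (abs_nonneg _)
    linarith only [h8, h9]
  have hcast : ((Q.natAbs : ℕ) : ℝ) = |(Q : ℝ)| := by
    rw [Nat.cast_natAbs]; push_cast; rfl
  refine ⟨Q.natAbs, ?_, ?_⟩
  · have h1 : ((den α (k + 1) : ℤ) : ℝ) ≤ ((|Q| : ℤ) : ℝ) := by
      rw [Int.cast_abs]; exact hQbig
    rw [Int.natCast_natAbs]
    exact Int.cast_le.1 h1
  · have hd : ∀ (γ : ℝ) (w : ℤ), |((Q.natAbs : ℕ) : ℝ) * γ - round (((Q.natAbs : ℕ) : ℝ) * γ)|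
        ≤ |(Q : ℝ) * γ - w| := by
      intro γ w
      rw [hcast]
      rcases abs_choice (Q : ℝ) with h1 | h1
      · rw [h1]; exact round_le _ w
      · rw [h1]
        refine (round_le _ (-w)).trans (le_of_eq ?_)
        rw [← abs_neg]
        congr 1
        push_cast
        ring
    have hd1 := hd α P
    have hd2 := hd β z
    have h7 : (Q : ℝ) * β - z
        = (q : ℝ) * (den α (k + 64) * β) + p * (den α (k + 65) * β) - z := by
      rw [hQr]; ring
    rw [← h7] at h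
    set δ : ℝ := |(Q : ℝ) * β - z| with hδ
    have hδ0 : 0 ≤ δ := abs_nonneg _
    have hδ1 : δ ≤ 1 := by
      have : δ ≤ m * δ := le_mul_of_one_le_left hδ0 hm1
      linarith
    have h8 : |(Q : ℝ)| * |R| * δ < C := by
      by_contra hcon
      push Not at hcon
      have h9 : C * s ≤ (|(Q : ℝ)| * |R| * δ) * s := by gcongr
      have h10 : (|(Q : ℝ)| * |R| * δ) * s = (s * |(Q : ℝ) * R|) * δ := by
        rw [abs_mul]; ring
      have h11 : (s * |(Q : ℝ) * R|) * δ ≤ (m + 1 / 1000000) * δ := by gcongr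
      rw [← hss] at hκ
      have h12 : (m + 1 / 1000000) * δ = m * δ + 1 / 1000000 * δ := by ring
      linarith only [h9, h10, h11, h12, hκ, h, hδ1]
    refine lt_of_le_of_lt ?_ h8
    rw [hcast] at hd1 hd2 ⊢
    exact mul_le_mul (mul_le_mul_of_nonneg_left hd1 (abs_nonneg _)) hd2 (abs_nonneg _)
      (mul_nonneg (abs_nonneg _) (abs_nonneg _))

end H255.LW
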