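import Pool.Agent.H736R5.MM.All
import Pool.Agent.H736R5.GL.All
import Pool.Agent.H736R5.GL.Final
import Pool.Agent.H255.LW.Block

/-!
# `MP_0ea415_nt`: Littlewood's problem for `α` with long blocks of equal partial quotients

Let `α` be irrational with partial quotients `a_0, a_1, a_2, …`. If infinitely often `128`
consecutive partial quotients `a_k, …, a_{k+127}` are equal, then for every real `β` there are
infinitely many positive integers `q` with `q ‖qα‖ ‖qβ‖ < 1/24`; if infinitely often `128`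
consecutive partial quotients are equal to `1`, then even with `1/30`.
-/

set_option autoImplicit false

namespace H255.LW.ConstantBlocks

open H736R5.MM H255.LW

/-- The complete quotients of `α`: `α_0 = α` and `α_{k+1} = 1 / (α_k - ⌊α_k⌋)`. -/
noncomputable def completeQuotient (α : ℝ) : ℕ → ℝ
  | 0 => α
  | k + 1 => 1 / (completeQuotient α k - ⌊completeQuotient α k⌋)

/-- The partial quotients `a_k = ⌊α_k⌋` of `α = [a_0; a_1, a_2, …]`. -/
noncomputable def partialQuotient (α : ℝ) (k : ℕ) : ℤ := ⌊completeQuotient α k⌋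

lemma cq_eq (α : ℝ) (k : ℕ) : completeQuotient α k = Pool.Agent.H380R2.LC.cq α k := by
  induction k with
  | zero => rfl
  | succ k ih =>
    show 1 / (completeQuotient α k - ⌊completeQuotient α k⌋)
      = (Int.fract (Pool.Agent.H380R2.LC.cq α k))⁻¹
    rw [ih, one_div]
    rfl

lemma pq_eq (α : ℝ) (k : ℕ) : partialQuotient α k = Pool.Agent.H380R2.LC.pq α k := by
  unfold partialQuotient Pool.Agent.H380R2.LC.pq
  rw [cq_eq]

/-- one block of a number `≤ 11` -/
lemma of_block {α : ℝ} (hα : Irrational α) (β : ℝ) (t : ℕ) (ht : 1 ≤ t) (ht' : t ≤ 11) (k : ℕ)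
    (hblock : ∀ i < 128, Pool.Agent.H380R2.LC.pq α (k + i + 1) = t) (cn cd : ℕ) (hcd0 : 0 < cd)
    (hc1 : cn ≤ cd) (hc : (cn : ℝ) / cd + 1 / 1000000 < 1 / 24 * √((t : ℝ) ^ 2 + 4))
    (hcov : ∀ x y : ℝ, Good t cn cd x y) :
    ∃ Q : ℕ, Pool.Agent.H380R2.LC.den α (k + 1) ≤ Q ∧
      (Q : ℝ) * |(Q : ℝ) * α - round ((Q : ℝ) * α)| * |(Q : ℝ) * β - round ((Q : ℝ) * β)|
        < 1 / 24 := by
  obtain ⟨q, p, z, hq, hp, hm, h⟩ := hcov (Pool.Agent.H380R2.LC.den α (k + 64) * β)
    (Pool.Agent.H380R2.LC.den α (k + 65) * β)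
  have hcdr : (0 : ℝ) < cd := by exact_mod_cast hcd0
  refine block_step t ht ht' hα k hblock β (1 / 24) ((cn : ℝ) / cd) ?_ hc q p z hq hp hm ?_
  · rw [div_le_one hcdr]
    exact_mod_cast hc1
  · rw [lt_div_iff₀ hcdr]
    exact h

lemma any_block {α : ℝ} (hα : Irrational α) (β : ℝ) (t : ℕ) (ht : 1 ≤ t) (k : ℕ)
    (hblock : ∀ i < 128, Pool.Agent.H380R2.LC.pq α (k + i + 1) = t) :
    ∃ Q : ℕ, Pool.Agent.H380R2.LC.den α (k + 1) ≤ Q ∧
      (Q : ℝ) * |(Q : ℝ) * α - round ((Q : ℝ) * α)| * |(Q : ℝ) * β - round ((Q : ℝ) * β)|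
        < 1 / 24 := by
  by_cases h12 : 12 ≤ t
  · -- a large partial quotient
    have hd : ∀ j, 0 ≤ Pool.Agent.H380R2.LC.den α j := fun j =>
      Pool.Agent.H380R2.LC.den_nonneg hα j
    have h1 : Pool.Agent.H380R2.LC.den α (k + 1 + 2) =
        t * Pool.Agent.H380R2.LC.den α (k + 1 + 1) + Pool.Agent.H380R2.LC.den α (k + 1) := by
      have e : Pool.Agent.H380R2.LC.den α (k + 1 + 2) = Pool.Agent.H380R2.LC.pq α (k + 1 + 1) *
        Pool.Agent.H380R2.LC.den α (k + 1 + 1) + Pool.Agent.H380R2.LC.den α (k + 1) := rfl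
      rw [e, hblock 1 (by norm_num)]
    have hpos : 1 ≤ Pool.Agent.H380R2.LC.den α (k + 1) := by
      have := den_mono hα (show 1 ≤ k + 1 by omega)
      exact this
    have hmono := den_mono hα (show k + 1 ≤ k + 1 + 1 by omega)
    obtain ⟨Q, hQ⟩ := Int.eq_ofNat_of_zero_le (hd (k + 1 + 1))
    refine ⟨Q, by rw [← hQ]; exact hmono, ?_⟩
    have hQr : (Q : ℝ) = Pool.Agent.H380R2.LC.den α (k + 1 + 1) := by
      rw [hQ]; rfl
    have h2 : |(Q : ℝ) * α - round ((Q : ℝ) * α)| ≤ |Pool.Agent.H380R2.LC.th α (k + 1 + 1)| := by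
      refine (round_le _ (Pool.Agent.H380R2.LC.num α (k + 1 + 1))).trans (le_of_eq ?_)
      rw [hQr]
      rfl
    have h3 := abs_sub_round ((Q : ℝ) * β)
    have h4 := Pool.Agent.H380R2.LC.den_mul_th hα (k + 1 + 1)
    have h5 : ((Pool.Agent.H380R2.LC.den α (k + 1 + 1 + 1) : ℤ) : ℝ) =
        t * (Q : ℝ) + Pool.Agent.H380R2.LC.den α (k + 1) := by
      rw [hQr]; exact_mod_cast h1
    rw [h5] at h4
    set T := |Pool.Agent.H380R2.LC.th α (k + 1 + 1)| with hT
    have hT0 : 0 < T := by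
      rw [hT, abs_pos]
      intro h0
      have hdet := Pool.Agent.H380R2.LC.th_succ hα (k + 1)
      have hQ1 : ((Pool.Agent.H380R2.LC.den α (k + 1 + 1) : ℤ) : ℝ) * α
          = Pool.Agent.H380R2.LC.num α (k + 1 + 1) := by
        have := h0
        unfold Pool.Agent.H380R2.LC.th at this
        linarith
      have hne : Pool.Agent.H380R2.LC.den α (k + 1 + 1) ≠ 0 := by omega
      have hirr := hα.intCast_mul hne
      rw [hQ1] at hirr
      exact hirr.ne_int _ rfl
    have h6 : (12 : ℝ) ≤ t := by exact_mod_cast h12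
    have h7 : (1 : ℝ) ≤ Pool.Agent.H380R2.LC.den α (k + 1) := by exact_mod_cast hpos
    have hQ0 : (0 : ℝ) ≤ Q := by positivity
    have h8 : 12 * ((Q : ℝ) * T) < 1 := by
      have e1 : (t * (Q : ℝ) + Pool.Agent.H380R2.LC.den α (k + 1)) * T
          = t * (Q * T) + Pool.Agent.H380R2.LC.den α (k + 1) * T := by ring
      rw [e1] at h4
      have e2 : 12 * ((Q : ℝ) * T) ≤ t * (Q * T) := by gcongr
      have e3 : 0 < Pool.Agent.H380R2.LC.den α (k + 1) * T := by positivity
      linarith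
    calc (Q : ℝ) * |(Q : ℝ) * α - round ((Q : ℝ) * α)| * |(Q : ℝ) * β - round ((Q : ℝ) * β)|
        ≤ (Q : ℝ) * T * (1 / 2) := by gcongr
      _ < 1 / 24 := by linarith
  · push Not at h12
    interval_cases t
    · exact of_block hα β 1 ht (by norm_num) k hblock 22360 240000 (by norm_num) (by norm_num)
        (hc_small 1 22360 (by norm_num)) cov1
    · exact of_block hα β 2 ht (by norm_num) k hblock 28284 240000 (by norm_num) (by norm_num)
        (hc_small 2 28284 (by norm_num)) cov2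
    · exact of_block hα β 3 ht (by norm_num) k hblock 36055 240000 (by norm_num) (by norm_num)
        (hc_small 3 36055 (by norm_num)) cov3
    · exact of_block hα β 4 ht (by norm_num) k hblock 44721 240000 (by norm_num) (by norm_num)
        (hc_small 4 44721 (by norm_num)) cov4
    · exact of_block hα β 5 ht (by norm_num) k hblock 53851 240000 (by norm_num) (by norm_num)
        (hc_small 5 53851 (by norm_num)) cov5
    · exact of_block hα β 6 ht (by norm_num) k hblock 63245 240000 (by norm_num) (by norm_num)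
        (hc_small 6 63245 (by norm_num)) cov6
    · exact of_block hα β 7 ht (by norm_num) k hblock 72800 240000 (by norm_num) (by norm_num)
        (hc_small 7 72800 (by norm_num)) cov7
    · exact of_block hα β 8 ht (by norm_num) k hblock 82461 240000 (by norm_num) (by norm_num)
        (hc_small 8 82461 (by norm_num)) cov8
    · exact of_block hα β 9 ht (by norm_num) k hblock 92195 240000 (by norm_num) (by norm_num)
        (hc_small 9 92195 (by norm_num)) cov9
    · exact of_block hα β 10 ht (by norm_num) k hblock 101980 240000 (by norm_num) (by norm_num)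
        (hc_small 10 101980 (by norm_num)) cov10
    · exact of_block hα β 11 ht (by norm_num) k hblock 111803 240000 (by norm_num) (by norm_num)
        (hc_small 11 111803 (by norm_num)) cov11

lemma golden_block {α : ℝ} (hα : Irrational α) (β : ℝ) (k : ℕ)
    (hblock : ∀ i < 128, Pool.Agent.H380R2.LC.pq α (k + i + 1) = ((1 : ℕ) : ℤ)) :
    ∃ Q : ℕ, Pool.Agent.H380R2.LC.den α (k + 1) ≤ Q ∧
      (Q : ℝ) * |(Q : ℝ) * α - round ((Q : ℝ) * α)| * |(Q : ℝ) * β - round ((Q : ℝ) * β)|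
        < 1 / 30 := by
  obtain ⟨q, p, z, hq, hp, hm, h⟩ := H736R5.GL.good_all (H736R5.GL.all _ (Or.inl rfl))
    (H736R5.GL.all _ (Or.inr rfl)) (Pool.Agent.H380R2.LC.den α (k + 64) * β)
    (Pool.Agent.H380R2.LC.den α (k + 65) * β)
  have e : p ^ 2 - ((1 : ℕ) : ℤ) * (p * q) - q ^ 2 = p ^ 2 - p * q - q ^ 2 := by
    push_cast; ring
  refine block_step 1 le_rfl (by norm_num) hα k hblock β (1 / 30) (559 / 7500) (by norm_num) ?_
    q p z (by linarith) (by linarith) (by rw [e]; exact hm) (by rw [e]; exact h)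
  have h5 : (2.23606 : ℝ) < √(((1 : ℕ) : ℝ) ^ 2 + 4) := by
    rw [Real.lt_sqrt (by norm_num)]
    norm_num
  linarith

theorem result :
    ∀ α : ℝ, Irrational α →
      -- infinitely many blocks of 128 equal partial quotients
      ((∀ K : ℕ, ∃ k : ℕ, K ≤ k ∧
          ∀ i : ℕ, i < 128 → partialQuotient α (k + i) = partialQuotient α k) →
        ∀ β : ℝ, ∀ N : ℕ, ∃ q : ℕ, N ≤ q ∧ 0 < q ∧
          (q : ℝ) * |(q : ℝ) * α - (round ((q : ℝ) * α) : ℝ)|
            * |(q : ℝ) * β - (round ((q : ℝ) * β) : ℝ)| < 1 / 24) ∧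
      -- infinitely many blocks of 128 partial quotients 1
      ((∀ K : ℕ, ∃ k : ℕ, K ≤ k ∧ ∀ i : ℕ, i < 128 → partialQuotient α (k + i) = 1) →
        ∀ β : ℝ, ∀ N : ℕ, ∃ q : ℕ, N ≤ q ∧ 0 < q ∧
          (q : ℝ) * |(q : ℝ) * α - (round ((q : ℝ) * α) : ℝ)|
            * |(q : ℝ) * β - (round ((q : ℝ) * β) : ℝ)| < 1 / 30) := by
  intro α hα
  have hden : ∀ N k : ℕ, 2 * N + 2 ≤ k → ∀ Q : ℕ,
      Pool.Agent.H380R2.LC.den α (k - 1 + 1) ≤ Q → N ≤ Q ∧ 0 < Q := by
    intro N k hk Q hQ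
    have h1 := den_ge hα N
    have h2 := den_mono hα (show 1 + 2 * N ≤ k - 1 + 1 by omega)
    omega
  constructor
  · intro h β N
    obtain ⟨k, hk, hb⟩ := h (2 * N + 2)
    have hpos : 1 ≤ Pool.Agent.H380R2.LC.pq α (k - 1 + 1) :=
      Pool.Agent.H380R2.LC.pq_pos hα (k - 1)
    have hk1 : k - 1 + 1 = k := by omega
    rw [hk1] at hpos
    obtain ⟨t, ht⟩ := Int.eq_ofNat_of_zero_le (show 0 ≤ Pool.Agent.H380R2.LC.pq α k by omega)
    have ht1 : 1 ≤ t := by
      have : (1 : ℤ) ≤ t := by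
        have h3 := hpos
        rw [ht] at h3
        exact h3
      exact_mod_cast this
    obtain ⟨Q, hQ1, hQ2⟩ := any_block hα β t ht1 (k - 1) (by
      intro i hi
      have := hb i hi
      rw [pq_eq, pq_eq] at this
      rw [show k - 1 + i + 1 = k + i by omega, this, ht]
      rfl)
    obtain ⟨h3, h4⟩ := hden N k hk Q hQ1
    exact ⟨Q, h3, h4, hQ2⟩
  · intro h β N
    obtain ⟨k, hk, hb⟩ := h (2 * N + 2)
    obtain ⟨Q, hQ1, hQ2⟩ := golden_block hα β (k - 1) (by
      intro i hi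
      have := hb i hi
      rw [pq_eq] at this
      rw [show k - 1 + i + 1 = k + i by omega, this]
      rfl)
    obtain ⟨h3, h4⟩ := hden N k hk Q hQ1
    exact ⟨Q, h3, h4, hQ2⟩

end H255.LW.ConstantBlocks
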